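import Mathlib
import Pool.Agent.Helper11.Iso.Piece

/-!
# The spaces of tensors are stable under symmetries and under algebraic correspondences
-/

universe u v w t

open CategoryTheory Finset

namespace Pool.Agent.Helper11.Iso

open Pool.Agent.Helper10 SmProjVar SPre Pool.Agent.Helper10.GIT Pool.Agent.Helper11

section general

variable {m : ℕ} {n : Fin m → ℕ} {R : Type*} [CommRing R]

lemma act_smul_mats (c : Fin m → R) (g : Mats n R) (z : Idx n → R) :
    act (fun t => c t • g t) z = (∏ t, c t) • act g z := by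
  funext w
  simp only [act_apply, Pi.smul_apply, smul_eq_mul, Matrix.smul_apply, prod_mul_distrib, mul_sum]
  exact sum_congr rfl fun w' _ => by ring

lemma ofFn_update_prod {A B : Type*} [Monoid A] [Monoid B] (φ : A →* B) {m : ℕ} (F : Fin m → A)
    (t : Fin m) : ∃ a b : A, ∀ y : B,
      (List.ofFn (Function.update (fun s => φ (F s)) t y)).prod = φ a * y * φ b := by
  induction m with
  | zero => exact t.elim0
  | succ m ih =>
    refine Fin.cases ?_ (fun t' => ?_) t
    · refine ⟨1, (List.ofFn fun i : Fin m => F i.succ).prod, fun y => ?_⟩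
      rw [List.ofFn_succ, List.prod_cons, Function.update_self, map_one, one_mul, map_list_prod,
        List.map_ofFn]
      congr 2
    · obtain ⟨a, b, h⟩ := ih (fun i => F i.succ) t'
      refine ⟨F 0 * a, b, fun y => ?_⟩
      rw [List.ofFn_succ, List.prod_cons, Function.update_of_ne (Fin.succ_ne_zero t').symm, map_mul]
      have h1 : (fun i : Fin m => Function.update (fun s => φ (F s)) t'.succ y i.succ) =
          Function.update (fun i : Fin m => φ (F i.succ)) t' y := by
        funext i
        by_cases hi : i = t'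
        · subst hi
          rw [Function.update_self, Function.update_self]
        · rw [Function.update_of_ne hi, Function.update_of_ne fun h => hi (Fin.succ_injective _ h)]
      rw [h1, h]
      simp only [mul_assoc]

end general

variable {k : Type u} [Field k] {K : Type t} [Field K] {Ω : Type v} [Field Ω] [Algebra K Ω]
  {P : SPre.{u, v, w, t} k K Ω}

/-- the matrix of a symmetry and the Gram matrix -/
lemma gram_sym {V : SmProjVar k} {n : ℕ} {e : Fin n → P.H V} {B : Matrix (Fin n) (Fin n) Ω}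
    (he : Piece P V n e B) (γ : P.Sym) (ρ : Matrix (Fin n) (Fin n) Ω)
    (hρ : ∀ b, γ.g V (e b) = ∑ a, ρ a b • e a) :
    ρ.det ≠ 0 ∧ ∃ c : Ω, ρ⁻¹ * B = c • (B * ρ.transpose) := by
  obtain ⟨c, hc0, hc⟩ := γ.tr V
  set G : Matrix (Fin n) (Fin n) Ω := Matrix.of fun a b => P.tr V (e a * e b) with hG
  have h1 : ρ.transpose * G * ρ = c • G := by
    ext a b
    rw [Matrix.smul_apply, smul_eq_mul, hG, Matrix.of_apply, ← hc, map_mul (γ.g V), hρ, hρ,
      Finset.sum_mul, map_sum, Matrix.mul_apply]
    have h2 : ∀ j, (ρ.transpose * (Matrix.of fun a b => P.tr V (e a * e b))) a j * ρ j b =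
        ∑ i, ρ i a * P.tr V (e i * e j) * ρ j b := by
      intro j
      rw [Matrix.mul_apply, Finset.sum_mul]
      exact Finset.sum_congr rfl fun i _ => by rw [Matrix.transpose_apply, Matrix.of_apply]
    rw [Finset.sum_congr rfl fun j _ => h2 j, Finset.sum_comm]
    refine Finset.sum_congr rfl fun i _ => ?_
    rw [smul_mul_assoc, map_smul, Finset.mul_sum, map_sum, smul_eq_mul, Finset.mul_sum]
    refine Finset.sum_congr rfl fun j _ => ?_
    rw [mul_smul_comm, map_smul, smul_eq_mul]
    ring
  have hGB : G * B = 1 := he.gram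
  have hBG : B * G = 1 := mul_eq_one_comm.mp hGB
  have hGdet : G.det ≠ 0 := by
    intro h0
    have := congrArg Matrix.det hGB
    rw [Matrix.det_mul, h0, zero_mul, Matrix.det_one] at this
    exact zero_ne_one this
  have hdet : ρ.det ≠ 0 := by
    intro h0
    have h3 := congrArg Matrix.det h1
    rw [Matrix.det_mul, h0, mul_zero, Matrix.det_smul] at h3
    exact mul_ne_zero (pow_ne_zero _ hc0) hGdet h3.symm
  refine ⟨hdet, c⁻¹, ?_⟩
  have hu : IsUnit ρ.det := isUnit_iff_ne_zero.mpr hdet
  -- `ρ B ρᵀ = c B`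
  have h4 : ρ * (B * ρ.transpose) = c • B := by
    have h5 : (ρ * (B * ρ.transpose)) * G = c • (1 : Matrix (Fin n) (Fin n) Ω) := by
      have h6 : (B * ρ.transpose * G) * ρ = c • (1 : Matrix (Fin n) (Fin n) Ω) := by
        rw [Matrix.mul_assoc, Matrix.mul_assoc, ← Matrix.mul_assoc ρ.transpose, h1,
          Matrix.mul_smul, hBG]
      have h7 : B * ρ.transpose * G = c • ρ⁻¹ := by
        have := congrArg (fun M => M * ρ⁻¹) h6
        rwa [Matrix.mul_assoc, Matrix.mul_nonsing_inv _ hu, Matrix.mul_one, Matrix.smul_mul,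
          Matrix.one_mul] at this
      rw [Matrix.mul_assoc, h7, Matrix.mul_smul, Matrix.mul_nonsing_inv _ hu]
    have h8 := congrArg (fun M => M * B) h5
    rwa [Matrix.mul_assoc, hGB, Matrix.mul_one, Matrix.smul_mul, Matrix.one_mul] at h8
  have h9 := congrArg (fun M => ρ⁻¹ * M) h4
  rw [← Matrix.mul_assoc, Matrix.nonsing_inv_mul _ hu, Matrix.one_mul, Matrix.mul_smul] at h9
  rw [h9, smul_smul, inv_mul_cancel₀ hc0, one_smul]

/-- PIECE ISO-G1 -/
theorem tens_sym {X Y : SmProjVar k} {m : ℕ} {V : Fin m → SmProjVar k}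
    {n : Fin m → ℕ} (e : ∀ t, Fin (n t) → P.H (V t)) (B : Mats n Ω)
    (he : ∀ t, Piece P (V t) (n t) (e t) (B t)) (f : ∀ t, Y.toOver ⟶ (V t).toOver)
    (γ : P.Sym) (ρ : Mats n Ω) (hρ : ∀ t b, γ.g (V t) (e t b) = ∑ a, ρ t a b • e t a) :
    (∀ t, (ρ t).det ≠ 0) ∧
    (∀ z ∈ tens P X Y (fun t b => P.pull (f t) (e t b)),
      act (fun t => (ρ t).transpose) z ∈ tens P X Y (fun t b => P.pull (f t) (e t b))) ∧
    (∀ y ∈ act B '' (tens P X Y (fun t b => P.pull (f t) (e t b)) : Set (Idx n → Ω)),
      act (contra fun t => (ρ t).transpose) y ∈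
        act B '' (tens P X Y (fun t b => P.pull (f t) (e t b)) : Set (Idx n → Ω))) := by
  have hdet : ∀ t, (ρ t).det ≠ 0 := fun t => (gram_sym (he t) γ (ρ t) (hρ t)).1
  choose c hc using fun t => (gram_sym (he t) γ (ρ t) (hρ t)).2
  have hx : ∀ t b, γ.g Y (P.pull (f t) (e t b)) = ∑ a, ρ t a b • P.pull (f t) (e t a) := by
    intro t b
    rw [γ.pull, hρ, map_sum (P.pull (f t))]
    exact Finset.sum_congr rfl fun a _ => map_smul (P.pull (f t)) _ _
  have h2 : ∀ z ∈ tens P X Y (fun t b => P.pull (f t) (e t b)),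
      act (fun t => (ρ t).transpose) z ∈ tens P X Y (fun t b => P.pull (f t) (e t b)) := by
    intro z hz
    obtain ⟨l, hl, hact⟩ := act_wordSet γ (X := X) (fun t b => P.pull (f t) (e t b)) ρ hx
    unfold tens at hz ⊢
    induction hz using Submodule.span_induction with
    | mem z hz =>
      obtain ⟨r, hr, c, rfl⟩ := hz
      have h1 := hact ((γ.g _).symm r) ((γ.g _).symm c)
      rw [AlgEquiv.apply_symm_apply, AlgEquiv.apply_symm_apply] at h1
      rw [h1]
      exact Submodule.smul_mem _ _ (Submodule.subset_span ⟨_, γ.rad' hr, _, rfl⟩)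
    | zero => rw [map_zero]; exact Submodule.zero_mem _
    | add x y _ _ hx hy => rw [map_add]; exact Submodule.add_mem _ hx hy
    | smul c x _ hx => rw [map_smul]; exact Submodule.smul_mem _ _ hx
  refine ⟨hdet, h2, ?_⟩
  rintro _ ⟨z, hz, rfl⟩
  refine ⟨(∏ t, c t) • act (fun t => (ρ t).transpose) z,
    Submodule.smul_mem _ _ (h2 z hz), ?_⟩
  have h3 : (contra fun t => (ρ t).transpose : Mats n Ω) * B =
      fun t => c t • ((B * fun t => (ρ t).transpose : Mats n Ω) t) := by
    funext t
    change ((ρ t).transpose)⁻¹.transpose * B t = c t • (B t * (ρ t).transpose)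
    rw [← hc t, ← Matrix.transpose_nonsing_inv, Matrix.transpose_transpose]
  rw [map_smul, ← act_mul, ← act_mul, h3, act_smul_mats]

/-- `snd^* (pushF snd u)` as a push-forward -/
lemma pushF_prodMap_snd {Y V : SmProjVar k} (u : P.H (V.prod V)) :
    P.pushF (prodMap (𝟙 Y.toOver) (snd V V)) (P.pull (snd Y (V.prod V)) u) =
      P.pull (snd Y V) (P.pushF (snd V V) u) := by
  have h1 := pushF_prodMap_ext (P := P) (𝟙 Y.toOver) (snd V V) 1 u
  rw [pushF_id] at h1
  unfold SPre.ext at h1
  rwa [map_one, map_one, one_mul, one_mul] at h1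

/-- the key identity: an operator on one letter is a correspondence on the word -/
lemma word_op {Y V : SmProjVar k} (a b : P.H Y) (v : P.H V) {c : P.H (V.prod V)}
    (hc : c ∈ P.alg (V.prod V)) :
    P.pull (fst Y V) a * P.pull (snd Y V) (op c v) * P.pull (fst Y V) b =
      P.pushF (prodMap (𝟙 Y.toOver) (snd V V))
        (P.pull (prodMap (𝟙 Y.toOver) (fst V V))
          (P.pull (fst Y V) a * P.pull (snd Y V) v * P.pull (fst Y V) b) *
          P.pull (snd Y (V.prod V)) c) := by
  have hcomm : ∀ z : P.H (Y.prod (V.prod V)), P.pull (snd Y (V.prod V)) c * z =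
      z * P.pull (snd Y (V.prod V)) c := fun z =>
    P.ev_comm _ _ _ (P.pull_ev _ _ (P.alg_le_ev _ hc))
  have hh : ∀ z : P.H Y, P.pull (prodMap (𝟙 Y.toOver) (fst V V)) (P.pull (fst Y V) z) =
      P.pull (prodMap (𝟙 Y.toOver) (snd V V)) (P.pull (fst Y V) z) := by
    intro z
    rw [pull_pull, pull_pull, prodMap, prodMap, lift_fst, lift_fst]
  have hv : P.pull (prodMap (𝟙 Y.toOver) (fst V V)) (P.pull (snd Y V) v) =
      P.pull (snd Y (V.prod V)) (P.pull (fst V V) v) := by
    rw [pull_pull, pull_pull, prodMap, lift_snd]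
  rw [map_mul (P.pull _), map_mul (P.pull _), hh, hh, hv, mul_assoc _ (P.pull _ (P.pull _ b)),
    ← hcomm, ← mul_assoc, mul_assoc (P.pull _ (P.pull _ a)), ← map_mul (P.pull (snd Y _)),
    pushF_mul_pull, pushF_pull_mul, pushF_prodMap_snd]
  rfl

/-- PIECE ISO-G2 -/
theorem tens_op {X Y : SmProjVar k} {m : ℕ} {V : Fin m → SmProjVar k}
    {n : Fin m → ℕ} (e : ∀ t, Fin (n t) → P.H (V t)) (f : ∀ t, Y.toOver ⟶ (V t).toOver)
    (hf : IsProdOf f) (t : Fin m) {c : P.H ((V t).prod (V t))} (hc : c ∈ P.alg ((V t).prod (V t)))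
    (U : Matrix (Fin (n t)) (Fin (n t)) Ω) (hU : ∀ b, op c (e t b) = ∑ a, U a b • e t a) :
    ∀ z ∈ tens P X Y (fun t b => P.pull (f t) (e t b)),
      act (Function.update (1 : Mats n Ω) t U.transpose) z ∈
        tens P X Y (fun t b => P.pull (f t) (e t b)) := by
  classical
  intro z hz
  unfold tens at hz ⊢
  induction hz using Submodule.span_induction with
  | mem z hz =>
    obtain ⟨r, hr, x, rfl⟩ := hz
    refine Submodule.subset_span ?_
    -- the morphisms
    set T₁ := Y.prod (V t) with hT₁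
    obtain ⟨ψ, hψ⟩ := hf T₁ (Function.update (fun s => fst Y (V t) ≫ f s) t (snd Y (V t)))
    have hψt : ψ ≫ f t = snd Y (V t) := by rw [hψ, Function.update_self]
    have hψs : ∀ s, s ≠ t → ψ ≫ f s = fst Y (V t) ≫ f s := fun s hs => by
      rw [hψ, Function.update_of_ne hs]
    have hr₁ : P.rad (X.prod T₁) (P.pushF (idProd X (lift (𝟙 Y.toOver) (f t))) r) := pushF_rad _ hr
    obtain ⟨r₂, hr₂, h₂⟩ := exists_contr_map (X := X)
      (prodMap (𝟙 Y.toOver) (fst (V t) (V t))) (prodMap (𝟙 Y.toOver) (snd (V t) (V t)))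
      (P.pull_mem (snd Y ((V t).prod (V t))) _ hc) hr₁
    refine ⟨P.pushF (idProd X ψ) r₂, pushF_rad _ hr₂, x, ?_⟩
    funext w
    rw [← contr_pull]
    -- the words
    obtain ⟨a, b, hab⟩ := ofFn_update_prod (P.pull (fst Y (V t)) : P.H Y →* P.H T₁)
      (fun s => P.pull (f s) (e s (w s))) t
    have hψw : P.pull ψ (word (fun t b => P.pull (f t) (e t b)) w) =
        P.pull (fst Y (V t)) a * P.pull (snd Y (V t)) (e t (w t)) * P.pull (fst Y (V t)) b := by
      rw [word, map_list_prod, List.map_ofFn]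
      refine Eq.trans ?_ (hab (P.pull (snd Y (V t)) (e t (w t))))
      congr 2
      funext s
      by_cases hs : s = t
      · subst hs
        rw [Function.update_self, Function.comp_apply, pull_pull, hψt]
      · rw [Function.update_of_ne hs, Function.comp_apply, pull_pull, hψs s hs]
        exact (pull_pull _ _ _).symm
    have h3 : P.pull (lift (𝟙 Y.toOver) (f t)) (P.pull (fst Y (V t)) a *
        P.pull (snd Y (V t)) (op c (e t (w t))) * P.pull (fst Y (V t)) b) =
        ∑ i, U i (w t) • word (fun t b => P.pull (f t) (e t b)) (Function.update w t i) := by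
      have h4 : P.pull (lift (𝟙 Y.toOver) (f t)) (P.pull (fst Y (V t)) a *
          P.pull (snd Y (V t)) (op c (e t (w t))) * P.pull (fst Y (V t)) b) =
          a * P.pull (f t) (op c (e t (w t))) * b := by
        rw [map_mul (P.pull _), map_mul (P.pull _), pull_pull, pull_pull, pull_pull, lift_fst,
          lift_snd, P.pull_id]
        rfl
      have h5 : ∀ i, word (fun t b => P.pull (f t) (e t b)) (Function.update w t i) =
          a * P.pull (f t) (e t i) * b := by
        intro i
        have h6 := congrArg (P.pull (lift (𝟙 Y.toOver) (f t))) (hab (P.pull (snd Y (V t)) (e t i)))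
        have h7 : P.pull (lift (𝟙 Y.toOver) (f t)) (P.pull (fst Y (V t)) a *
            P.pull (snd Y (V t)) (e t i) * P.pull (fst Y (V t)) b) =
            a * P.pull (f t) (e t i) * b := by
          rw [map_mul (P.pull _), map_mul (P.pull _), pull_pull, pull_pull, pull_pull, lift_fst,
            lift_snd, P.pull_id]
          rfl
        refine Eq.trans ?_ (Eq.trans h6 h7)
        rw [word, map_list_prod, List.map_ofFn]
        congr 2
        funext s
        rw [Function.comp_apply]
        by_cases hs : s = t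
        · subst hs
          rw [Function.update_self, Function.update_self, pull_pull, lift_snd]
        · rw [Function.update_of_ne hs, Function.update_of_ne hs]
          change _ = P.pull (lift (𝟙 Y.toOver) (f t)) (P.pull (fst Y (V t)) _)
          rw [pull_pull (lift (𝟙 Y.toOver) (f t)), lift_fst, P.pull_id]
          rfl
      rw [h4, hU, map_sum (P.pull _), Finset.mul_sum, Finset.sum_mul]
      refine Finset.sum_congr rfl fun i _ => ?_
      rw [h5, map_smul (P.pull _), mul_smul_comm, smul_mul_assoc]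
    rw [hψw, ← h₂, ← word_op a b (e t (w t)) hc, ← contr_pull, h3]
    -- the sum
    rw [act_apply]
    have h8 : ∀ (i : Fin (n t)), P.tr X (U i (w t) • P.contr X Y
        (word (fun t b => P.pull (f t) (e t b)) (Function.update w t i)) r * x) =
        U i (w t) * P.tr X (P.contr X Y
          (word (fun t b => P.pull (f t) (e t b)) (Function.update w t i)) r * x) := by
      intro i
      rw [smul_mul_assoc, map_smul, smul_eq_mul]
    rw [contr_sum, Finset.sum_mul, map_sum, Finset.sum_congr rfl fun i _ => h8 i]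
    symm
    refine Finset.sum_of_injOn (fun i => Function.update w t i) ?_ ?_ ?_ ?_
    · intro i _ j _ hij
      have := congrFun hij t
      simpa using this
    · intro i _
      exact Finset.mem_coe.mpr (Finset.mem_univ _)
    · intro w' _ hw'
      obtain ⟨s, hs⟩ : ∃ s, s ≠ t ∧ w s ≠ w' s := by
        by_contra hcon
        push Not at hcon
        refine hw' ⟨w' t, Finset.mem_coe.mpr (Finset.mem_univ _), ?_⟩
        funext s
        by_cases hs : s = t
        · subst hs; simp
        · simp only [Function.update_of_ne hs]; exact hcon s hs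
      rw [Finset.prod_eq_zero (Finset.mem_univ s), zero_mul]
      rw [Function.update_of_ne hs.1, Pi.one_apply, Matrix.one_apply_ne hs.2]
    · intro i _
      have h9 : ∏ s, (Function.update (1 : Mats n Ω) t U.transpose) s (w s)
          (Function.update w t i s) = U i (w t) := by
        rw [Finset.prod_eq_single t]
        · rw [Function.update_self, Function.update_self, Matrix.transpose_apply]
        · intro s _ hs
          rw [Function.update_of_ne hs, Function.update_of_ne hs, Pi.one_apply,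
            Matrix.one_apply_eq]
        · intro h; exact absurd (Finset.mem_univ t) h
      rw [h9]
  | zero => rw [map_zero]; exact Submodule.zero_mem _
  | add x y _ _ hx hy => rw [map_add]; exact Submodule.add_mem _ hx hy
  | smul c x _ hx => rw [map_smul]; exact Submodule.smul_mem _ _ hx

/-! ### semilinear automorphisms -/

/-- the action of a semilinear automorphism on words -/
lemma s_word (σ : Ω ≃ₐ[K] Ω) {Y : SmProjVar k} {m : ℕ} {n : Fin m → ℕ}
    (x : ∀ t, Fin (n t) → P.H Y) (ρ : Mats n Ω)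
    (hρ : ∀ t b, P.s σ Y (x t b) = ∑ a, ρ t a b • x t a) (w : Idx n) :
    P.s σ Y (word x w) = ∑ w' : Idx n, (∏ t, ρ t (w' t) (w t)) • word x w' := by
  unfold word
  rw [map_list_prod, List.map_ofFn]
  have h1 : (P.s σ Y ∘ fun t => x t (w t)) = fun t => ∑ a, ρ t a (w t) • x t a := by
    funext t
    exact hρ t (w t)
  rw [h1]
  exact ofFn_prod_sum (α := fun t => Fin (n t)) (fun t a => ρ t a (w t)) (fun t a => x t a)

/-- the conjugate of a tensor given by a pair of classes -/
lemma s_tensor (σ : Ω ≃ₐ[K] Ω) {X Y : SmProjVar k} {m : ℕ} {n : Fin m → ℕ}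
    (x : ∀ t, Fin (n t) → P.H Y) (ρ : Mats n Ω)
    (hρ : ∀ t b, P.s σ Y (x t b) = ∑ a, ρ t a b • x t a) (r : P.H (X.prod Y)) (c : P.H X) :
    (fun w => σ (P.tr X (P.contr X Y (word x w) r * c))) =
      act (fun t => (ρ t).transpose)
        (fun w => P.tr X (P.contr X Y (word x w) (P.s σ _ r) * P.s σ _ c)) := by
  funext w
  rw [← P.tr_s, map_mul (P.s σ X), contr_s, s_word σ x ρ hρ, contr_sum, Finset.sum_mul, map_sum,
    act_apply]
  refine Finset.sum_congr rfl fun w' _ => ?_
  rw [smul_mul_assoc, map_smul, smul_eq_mul]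
  rfl

/-- the matrix of a semilinear automorphism and the Gram matrix -/
lemma gram_s (σ : Ω ≃ₐ[K] Ω) {V : SmProjVar k} {n : ℕ} {e : Fin n → P.H V}
    {B : Matrix (Fin n) (Fin n) Ω} (he : Piece P V n e B) (ρ : Matrix (Fin n) (Fin n) Ω)
    (hρ : ∀ b, P.s σ V (e b) = ∑ a, ρ a b • e a) :
    ρ.det ≠ 0 ∧ ρ * B.map σ = B * (ρ⁻¹).transpose := by
  set G : Matrix (Fin n) (Fin n) Ω := Matrix.of fun a b => P.tr V (e a * e b) with hG
  have h1 : ρ.transpose * G * ρ = G.map σ := by
    ext a b
    rw [Matrix.map_apply, hG, Matrix.of_apply, ← P.tr_s, map_mul (P.s σ V), hρ, hρ,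
      Finset.sum_mul, map_sum, Matrix.mul_apply]
    have h2 : ∀ j, (ρ.transpose * (Matrix.of fun a b => P.tr V (e a * e b))) a j * ρ j b =
        ∑ i, ρ i a * P.tr V (e i * e j) * ρ j b := by
      intro j
      rw [Matrix.mul_apply, Finset.sum_mul]
      exact Finset.sum_congr rfl fun i _ => by rw [Matrix.transpose_apply, Matrix.of_apply]
    rw [Finset.sum_congr rfl fun j _ => h2 j, Finset.sum_comm]
    refine Finset.sum_congr rfl fun i _ => ?_
    rw [smul_mul_assoc, map_smul, Finset.mul_sum, map_sum, smul_eq_mul, Finset.mul_sum]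
    refine Finset.sum_congr rfl fun j _ => ?_
    rw [mul_smul_comm, map_smul, smul_eq_mul]
    ring
  have hGB : G * B = 1 := he.gram
  have hσ : G.map σ * B.map σ = 1 := by
    have h3 : (G * B).map (σ : Ω →+* Ω) = G.map (σ : Ω →+* Ω) * B.map (σ : Ω →+* Ω) :=
      Matrix.map_mul
    rw [hGB] at h3
    have h4 : (1 : Matrix (Fin n) (Fin n) Ω).map (σ : Ω →+* Ω) = 1 :=
      Matrix.map_one _ (map_zero _) (map_one _)
    rw [h4] at h3
    exact h3.symm
  have hdet : ρ.det ≠ 0 := by
    intro h0
    have h3 := congrArg Matrix.det hσ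
    rw [← h1, Matrix.det_mul, Matrix.det_mul, h0, mul_zero, zero_mul, Matrix.det_one] at h3
    exact zero_ne_one h3
  refine ⟨hdet, ?_⟩
  have hu : IsUnit ρ.det := isUnit_iff_ne_zero.mpr hdet
  have hBG : B * G = 1 := mul_eq_one_comm.mp hGB
  -- `ρᵀ G (ρ σ(B)) = 1`, so `ρᵀ = (G ρ σ(B))⁻¹`
  have h5 : ρ.transpose * (G * (ρ * B.map σ)) = 1 := by
    rw [← Matrix.mul_assoc, ← Matrix.mul_assoc, h1, hσ]
  have h6 : G * (ρ * B.map σ) = (ρ⁻¹).transpose := by
    have hut : IsUnit ρ.transpose.det := by rw [Matrix.det_transpose]; exact hu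
    have h7 := congrArg (fun M => (ρ.transpose)⁻¹ * M) h5
    rw [← Matrix.mul_assoc, Matrix.nonsing_inv_mul _ hut, Matrix.one_mul, Matrix.mul_one] at h7
    rw [h7, Matrix.transpose_nonsing_inv]
  rw [← h6, ← Matrix.mul_assoc B, hBG, Matrix.one_mul]

lemma act_map_alg (σ : Ω ≃ₐ[K] Ω) {m : ℕ} {n : Fin m → ℕ} (g : Mats n Ω) (z : Idx n → Ω) :
    (fun w => σ (act g z w)) = act (fun t => (g t).map σ) (fun w => σ (z w)) := by
  funext w
  rw [act_apply, act_apply, map_sum]
  refine Finset.sum_congr rfl fun w' _ => ?_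
  rw [map_mul, map_prod]
  rfl

/-- semilinear version of `tens_sym` -/
theorem tens_s {X Y : SmProjVar k} {m : ℕ} {V : Fin m → SmProjVar k}
    {n : Fin m → ℕ} (e : ∀ t, Fin (n t) → P.H (V t)) (B : Mats n Ω)
    (he : ∀ t, Piece P (V t) (n t) (e t) (B t)) (f : ∀ t, Y.toOver ⟶ (V t).toOver)
    (σ : Ω ≃ₐ[K] Ω) (ρ : Mats n Ω) (hρ : ∀ t b, P.s σ (V t) (e t b) = ∑ a, ρ t a b • e t a) :
    (∀ t, (ρ t).det ≠ 0) ∧
    (∀ z ∈ tens P X Y (fun t b => P.pull (f t) (e t b)),
      act (fun t => ((ρ t)⁻¹).transpose) (fun w => σ (z w)) ∈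
        tens P X Y (fun t b => P.pull (f t) (e t b))) ∧
    (∀ y ∈ act B '' (tens P X Y (fun t b => P.pull (f t) (e t b)) : Set (Idx n → Ω)),
      act ρ (fun w => σ (y w)) ∈
        act B '' (tens P X Y (fun t b => P.pull (f t) (e t b)) : Set (Idx n → Ω))) := by
  have hdet : ∀ t, (ρ t).det ≠ 0 := fun t => (gram_s σ (he t) (ρ t) (hρ t)).1
  have hx : ∀ t b, P.s σ Y (P.pull (f t) (e t b)) = ∑ a, ρ t a b • P.pull (f t) (e t a) := by
    intro t b
    rw [P.s_pull, hρ, map_sum (P.pull (f t))]
    exact Finset.sum_congr rfl fun a _ => map_smul (P.pull (f t)) _ _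
  have h2 : ∀ z ∈ tens P X Y (fun t b => P.pull (f t) (e t b)),
      act (fun t => ((ρ t)⁻¹).transpose) (fun w => σ (z w)) ∈
        tens P X Y (fun t b => P.pull (f t) (e t b)) := by
    intro z hz
    unfold tens at hz ⊢
    induction hz using Submodule.span_induction with
    | mem z hz =>
      obtain ⟨r, hr, c, rfl⟩ := hz
      rw [s_tensor σ _ ρ hx, ← act_mul]
      have h3 : ((fun t => ((ρ t)⁻¹).transpose : Mats n Ω) *
          fun t => (ρ t).transpose : Mats n Ω) = 1 := by
        funext t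
        change ((ρ t)⁻¹).transpose * (ρ t).transpose = 1
        rw [← Matrix.transpose_mul, Matrix.mul_nonsing_inv _ (isUnit_iff_ne_zero.mpr (hdet t)),
          Matrix.transpose_one]
      rw [h3, act_one]
      exact Submodule.subset_span ⟨_, P.rad_s σ hr, _, rfl⟩
    | zero =>
      have h3 : (fun w => σ ((0 : Idx n → Ω) w)) = 0 := by
        funext w
        exact map_zero σ
      rw [h3, map_zero]; exact Submodule.zero_mem _
    | add x y _ _ hx hy =>
      have h3 : (fun w => σ ((x + y) w)) = (fun w => σ (x w)) + fun w => σ (y w) := by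
        funext w
        exact map_add σ _ _
      rw [h3, map_add]; exact Submodule.add_mem _ hx hy
    | smul c x _ hx =>
      have h3 : (fun w => σ ((c • x) w)) = σ c • fun w => σ (x w) := by
        funext w
        exact map_mul σ _ _
      rw [h3, map_smul]; exact Submodule.smul_mem _ _ hx
  refine ⟨hdet, h2, ?_⟩
  rintro _ ⟨z, hz, rfl⟩
  refine ⟨_, h2 z hz, ?_⟩
  rw [act_map_alg, ← act_mul, ← act_mul]
  congr 2
  funext t
  exact (gram_s σ (he t) (ρ t) (hρ t)).2.symm

end Pool.Agent.Helper11.Iso
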